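import Pool.Agent.H45.CG.Asm4

/-!
MP_75608d_al.  There are `C, ε > 0` such that for all large `n` and all `k ≥ C (log log n)²`: all
but a proportion `2/√n` of the `k`-tuples of elements of `A_n` are `ε`-expanding generating sets.
The spectral gap `ε` is independent of `n`.
-/

set_option autoImplicit false

namespace Pool.Agent.Results.MP_75608d_al.ConstantGap
open Finset Filter Topology

/-- the random walk operator: `(P f)(g) = (1/2k) ∑_i (f(g x_i) + f(g x_i⁻¹))` -/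
noncomputable def walk {G : Type*} [Group G] {k : ℕ} (x : Fin k → G) (f : G → ℝ) (g : G) : ℝ :=
  (∑ i, (f (g * x i) + f (g * (x i)⁻¹))) / (2 * k)

/-- `S = {x_i^{±1}}` is an `ε`-expanding generating set: `x` generates `G`, and
`⟨f, P f⟩ ≤ (1 - ε) ⟨f, f⟩` for all `f` of mean zero, i.e. `1 - λ₂(S) ≥ ε` -/
def Expanding {G : Type*} [Group G] [Fintype G] {k : ℕ} (ε : ℝ) (x : Fin k → G) : Prop :=
  Subgroup.closure (Set.range x) = ⊤ ∧
    ∀ f : G → ℝ, ∑ g, f g = 0 → ∑ g, f g * walk x f g ≤ (1 - ε) * ∑ g, f g ^ 2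

theorem result : ∃ C ε : ℝ, 0 < C ∧ 0 < ε ∧ ∀ᶠ n : ℕ in atTop, ∀ k : ℕ,
    C * (Real.log (Real.log n)) ^ 2 ≤ k →
    (Nat.card {x : Fin k → alternatingGroup (Fin n) // ¬ Expanding ε x} : ℝ) ≤
        2 / Real.sqrt n * (Fintype.card (alternatingGroup (Fin n)) : ℝ) ^ k :=
  CG45.MAINC

end Pool.Agent.Results.MP_75608d_al.ConstantGap
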