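import Pool.Agent.H45.LLG.Main

/-!
MP_75608d_al.  There is `C > 0` such that for all large `n` and all `k ≥ C log log n`: all but
a proportion `2/√n` of the `k`-tuples of elements of `A_n` are expanding generating sets with
constant `(log n)^{-C}`.
-/

set_option autoImplicit false

namespace Pool.Agent.Results.MP_75608d_al.LogLogGenerators
open Finset Filter Topology

/-- the random walk operator: `(P f)(g) = (1/2k) ∑_i (f(g x_i) + f(g x_i⁻¹))` -/
noncomputable def walk {G : Type*} [Group G] {k : ℕ} (x : Fin k → G) (f : G → ℝ) (g : G) : ℝ :=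
  (∑ i, (f (g * x i) + f (g * (x i)⁻¹))) / (2 * k)

/-- `S = {x_i^{±1}}` is an `ε`-expanding generating set: `x` generates `G`, and
`⟨f, P f⟩ ≤ (1 - ε) ⟨f, f⟩` for all `f` of mean zero, i.e. `1 - λ₂(S) ≥ ε` -/
def Expanding {G : Type*} [Group G] [Fintype G] {k : ℕ} (ε : ℝ) (x : Fin k → G) : Prop :=
  Subgroup.closure (Set.range x) = ⊤ ∧
    ∀ f : G → ℝ, ∑ g, f g = 0 → ∑ g, f g * walk x f g ≤ (1 - ε) * ∑ g, f g ^ 2

theorem result : ∃ C : ℝ, 0 < C ∧ ∀ᶠ n : ℕ in atTop, ∀ k : ℕ,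
    C * Real.log (Real.log n) ≤ k →
    (Nat.card {x : Fin k → alternatingGroup (Fin n) //
      ¬ Expanding ((Real.log n) ^ (-C)) x} : ℝ) ≤
        2 / Real.sqrt n * (Fintype.card (alternatingGroup (Fin n)) : ℝ) ^ k :=
  LG45.MAINF

end Pool.Agent.Results.MP_75608d_al.LogLogGenerators
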